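import Pool.Agent.Q322.BQ.Cnt

set_option autoImplicit false

/-!
# Brooks quasimorphisms of non-self-overlapping words, homogenization, telescoping sums
-/

namespace Pool.Agent.Q322.BQ

open Filter Topology FreeGroup

variable {r : ℕ}

/-- the Brooks counting function of a non-self-overlapping word -/
noncomputable def hB (w g : FreeGroup (Fin r)) : ℝ :=
  (cnt w.toWord g.toWord : ℝ) - (cnt (w⁻¹).toWord g.toWord : ℝ)

/-- its homogenization -/
noncomputable def hBar (w g : FreeGroup (Fin r)) : ℝ :=
  limUnder atTop (fun n : ℕ => hB w (g ^ n) / n)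

/-- the nontrivial words without self-overlap -/
def NN (r : ℕ) : Set (FreeGroup (Fin r)) := {w | w ≠ 1 ∧ NSO w.toWord}

theorem invRev_append' (u v : List (Fin r × Bool)) :
    invRev (u ++ v) = invRev v ++ invRev u := by
  simp [invRev]

theorem cnt_invRev (w L : List (Fin r × Bool)) : cnt (invRev w) L = cnt w (invRev L) := by
  have hinj : Function.Injective (fun p : List (Fin r × Bool) × List (Fin r × Bool) =>
      (invRev p.2, invRev p.1)) := by
    rintro ⟨a, b⟩ ⟨c, d⟩ h
    simp only [Prod.mk.injEq] at h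
    exact Prod.ext (invRev_injective h.2) (invRev_injective h.1)
  rw [cnt, cnt, ← Set.ncard_image_of_injective _ hinj]
  congr 1
  ext ⟨a, b⟩
  simp only [Set.mem_image, Set.mem_ofPred_eq, Prod.exists, Prod.mk.injEq]
  constructor
  · rintro ⟨a', b', h, rfl, rfl⟩
    rw [← h, invRev_append', invRev_append', invRev_invRev]
    simp
  · intro h
    refine ⟨invRev b, invRev a, ?_, invRev_invRev, invRev_invRev⟩
    have := congrArg invRev h
    rw [invRev_invRev, invRev_append', invRev_append'] at this
    rw [← this]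
    simp

theorem nso_invRev {w : List (Fin r × Bool)} (hw : NSO w) : NSO (invRev w) := by
  rintro u hu ⟨v, hv⟩ ⟨v', hv'⟩
  have h1 := congrArg invRev hv
  have h2 := congrArg invRev hv'
  rw [invRev_invRev, invRev_append'] at h1 h2
  have h3 := hw (invRev u) (by
    intro h
    apply hu
    have := congrArg invRev h
    rw [invRev_invRev] at this
    simpa using this) ⟨_, h2⟩ ⟨_, h1⟩
  rw [← h3, invRev_invRev]

theorem hB_inv (w g : FreeGroup (Fin r)) : hB w⁻¹ g = -hB w g := by
  rw [hB, hB, inv_inv]; ring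

theorem hB_eq (w g : FreeGroup (Fin r)) :
    hB w g = (cnt w.toWord g.toWord : ℝ) - (cnt w.toWord (invRev g.toWord) : ℝ) := by
  rw [hB, toWord_inv, cnt_invRev]

theorem NN_inv {w : FreeGroup (Fin r)} (hw : w ∈ NN r) : w⁻¹ ∈ NN r := by
  refine ⟨by simpa using hw.1, ?_⟩
  rw [toWord_inv]
  exact nso_invRev hw.2

theorem toWord_ne {w : FreeGroup (Fin r)} (hw : w ≠ 1) : w.toWord ≠ [] := by
  intro h
  exact hw (toWord_eq_nil_iff.1 h)

/-- the reduced word of a power -/
theorem toWord_pow' (g : FreeGroup (Fin r)) : ∃ u c v : List (Fin r × Bool),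
    c.length ≤ g.toWord.length ∧
    ∀ n : ℕ, n ≠ 0 → (g ^ n).toWord = u ++ (List.replicate n c).flatten ++ v := by
  refine ⟨reduceCyclically.conjugator g.toWord, reduceCyclically g.toWord,
    invRev (reduceCyclically.conjugator g.toWord), ?_, ?_⟩
  · have := congrArg List.length (reduceCyclically.conj_conjugator_reduceCyclically g.toWord)
    simp only [List.length_append] at this
    omega
  · intro n hn
    rw [toWord_pow, reduceCyclically.reduce_flatten_replicate isReduced_toWord, if_neg hn]

theorem tendsto_cnt {W : List (Fin r × Bool)} (hW : W ≠ []) (g : FreeGroup (Fin r)) :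
    ∃ l : ℝ, Tendsto (fun n : ℕ => (cnt W (g ^ n).toWord : ℝ) / n) atTop (𝓝 l) := by
  obtain ⟨u, c, v, -, hpow⟩ := toWord_pow' g
  let A : ℕ → ℝ := fun n => (cnt W (u ++ (List.replicate n c).flatten ++ v) : ℝ) + 3 * W.length
  have hsub : Subadditive A := by
    intro m n
    have := cnt_pow_le hW u c v m n
    have h2 : (cnt W (u ++ (List.replicate (m + n) c).flatten ++ v) : ℝ) ≤
        (cnt W (u ++ (List.replicate m c).flatten ++ v) : ℝ) +
        (cnt W (u ++ (List.replicate n c).flatten ++ v) : ℝ) + 3 * W.length := by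
      exact_mod_cast this
    simp only [A]
    linarith
  have hA0 : ∀ n, 0 ≤ A n := fun n => by positivity
  have hbdd : BddBelow (Set.range fun n => A n / n) := by
    refine ⟨0, ?_⟩
    rintro _ ⟨n, rfl⟩
    exact div_nonneg (hA0 n) (Nat.cast_nonneg n)
  have h1 := hsub.tendsto_lim hbdd
  have h2 : Tendsto (fun n : ℕ => (3 * W.length : ℝ) / n) atTop (𝓝 0) :=
    tendsto_const_div_atTop_nhds_zero_nat _
  have h3 := h1.sub h2
  refine ⟨hsub.lim - 0, h3.congr' ?_⟩
  filter_upwards [eventually_ne_atTop 0] with n hn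
  rw [hpow n hn]
  simp only [A]
  ring

theorem tendsto_cnt_zero {W : List (Fin r × Bool)} (hW : W ≠ []) (hN : NSO W)
    (g : FreeGroup (Fin r)) (hg : g.toWord.length < W.length) :
    Tendsto (fun n : ℕ => (cnt W (g ^ n).toWord : ℝ) / n) atTop (𝓝 0) := by
  obtain ⟨u, c, v, hc, hpow⟩ := toWord_pow' g
  have h2 : Tendsto (fun n : ℕ => ((cnt W u : ℝ) + cnt W v + 2 * W.length) / n) atTop (𝓝 0) :=
    tendsto_const_div_atTop_nhds_zero_nat _
  refine squeeze_zero' (Eventually.of_forall (fun n => by positivity)) ?_ h2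
  filter_upwards [eventually_ne_atTop 0] with n hn
  rw [hpow n hn]
  apply div_le_div_of_nonneg_right _ (Nat.cast_nonneg n)
  have e1 := cnt_append_le hW (u ++ (List.replicate n c).flatten) v
  have e2 := cnt_append_le hW u (List.replicate n c).flatten
  have e3 := cnt_pow_nso hN (lt_of_le_of_lt hc hg) n
  have : cnt W (u ++ (List.replicate n c).flatten ++ v) ≤ cnt W u + cnt W v + 2 * W.length := by
    omega
  exact_mod_cast this

theorem tendsto_hBar {w : FreeGroup (Fin r)} (hw : w ≠ 1) (g : FreeGroup (Fin r)) :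
    Tendsto (fun n : ℕ => hB w (g ^ n) / n) atTop (𝓝 (hBar w g)) := by
  obtain ⟨l, hl⟩ := tendsto_cnt (toWord_ne hw) g
  have hw' : w⁻¹ ≠ 1 := by simpa using hw
  obtain ⟨l', hl'⟩ := tendsto_cnt (toWord_ne hw') g
  have h : Tendsto (fun n : ℕ => hB w (g ^ n) / n) atTop (𝓝 (l - l')) := by
    refine (hl.sub hl').congr (fun n => ?_)
    rw [hB, sub_div]
  rw [hBar, h.limUnder_eq]
  exact h

theorem hBar_zero {w : FreeGroup (Fin r)} (hw : w ∈ NN r) (g : FreeGroup (Fin r))
    (hg : g.toWord.length < w.toWord.length) : hBar w g = 0 := by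
  have hw' := NN_inv hw
  have h1 := tendsto_cnt_zero (toWord_ne hw.1) hw.2 g hg
  have h2 := tendsto_cnt_zero (toWord_ne hw'.1) hw'.2 g (by
    rw [toWord_inv, invRev_length]; exact hg)
  have h : Tendsto (fun n : ℕ => hB w (g ^ n) / n) atTop (𝓝 (0 - 0)) := by
    refine (h1.sub h2).congr (fun n => ?_)
    rw [hB, sub_div]
  have := tendsto_nhds_unique h (tendsto_hBar hw.1 g)
  rw [← this, sub_zero]

theorem hB_zero (w g : FreeGroup (Fin r)) (hg : g.toWord.length < w.toWord.length) :
    hB w g = 0 := by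
  rw [hB, cnt_eq_zero_of_length hg, cnt_eq_zero_of_length (by
    rw [toWord_inv, invRev_length]; exact hg)]
  simp

theorem hBar_inv {w : FreeGroup (Fin r)} (hw : w ≠ 1) (g : FreeGroup (Fin r)) :
    hBar w⁻¹ g = -hBar w g := by
  have hw' : w⁻¹ ≠ 1 := by simpa using hw
  have h1 := (tendsto_hBar hw g).neg
  refine tendsto_nhds_unique (tendsto_hBar hw' g) (h1.congr (fun n => ?_))
  rw [hB_inv]
  ring

/-! ### the words -/

variable {k : ℕ}

/-- `a^{n+1} b a⁻¹` -/
def Wn (k n : ℕ) : List (Fin (k + 2) × Bool) :=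
  List.replicate (n + 1) (0, true) ++ [(1, true), (0, false)]

theorem Wn_length (n : ℕ) : (Wn k n).length = n + 3 := by simp [Wn]

theorem Wn_ne (n : ℕ) : Wn k n ≠ [] := by simp [Wn]

/-- the letters which may follow -/
abbrev Lt (k : ℕ) : Type := {s : Fin (k + 2) × Bool // s ≠ (0, true)}

theorem one_ne_zero2 : (1 : Fin (k + 2)) ≠ 0 := by simp

theorem Wn_reduced (n : ℕ) : IsReduced (Wn k n) := by
  rw [FreeGroup.IsReduced, Wn, List.isChain_append]
  refine ⟨List.isChain_replicate_of_rel _ (fun _ => rfl), by simp, ?_⟩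
  intro x hx y hy
  have hx' : x = (0, true) := List.eq_of_mem_replicate (List.mem_of_getLast? hx)
  have hy' : y = (1, true) := by simpa using hy.symm
  rw [hx', hy']
  simp

theorem Wns_reduced (n : ℕ) (s : Lt k) : IsReduced (Wn k n ++ [s.1]) := by
  rw [FreeGroup.IsReduced, List.isChain_append]
  refine ⟨Wn_reduced n, by simp, ?_⟩
  intro x hx y hy
  have hx' : x = (0, false) := by
    simp only [Wn, List.getLast?_append, Option.mem_def] at hx
    simpa using hx.symm
  have hy' : y = s.1 := by simpa using hy.symm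
  rw [hx', hy']
  intro h
  by_contra hne
  apply s.2
  apply Prod.ext
  · exact h.symm
  · revert hne
    cases s.1.2 <;> simp

theorem Wn_get (n j : ℕ) (hj : j < (Wn k n).length) :
    (Wn k n)[j]'hj = if j ≤ n then (0, true) else if j = n + 1 then (1, true) else (0, false) := by
  simp only [Wn]
  split_ifs with h1 h2
  · rw [List.getElem_append_left (by simp; omega)]
    simp
  · subst h2
    rw [List.getElem_append_right (by simp)]
    simp
  · have : j = n + 2 := by rw [Wn_length] at hj; omega
    subst this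
    rw [List.getElem_append_right (by simp)]
    simp

theorem Wn_nso (n : ℕ) : NSO (Wn k n) := by
  intro u hu h1 h2
  by_contra hne
  have hlen : u.length < (Wn k n).length := by
    have := h1.length_le
    rcases this.lt_or_eq with h | h
    · exact h
    · exact absurd (h1.eq_of_length h) hne
  have hu0 : 0 < u.length := List.length_pos_iff.2 hu
  obtain ⟨h3, h4, h5⟩ := overlap_getElem h1 h2 (u.length - 1) (by omega)
  rw [Wn_get, Wn_get] at h5
  rw [Wn_length] at hlen h4
  have h6 : (Wn k n).length - u.length + (u.length - 1) = n + 2 := by rw [Wn_length]; omega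
  rw [h6] at h5
  have h7 : ¬ (n + 2 ≤ n) := by omega
  have h8 : ¬ (n + 2 = n + 1) := by omega
  rw [if_neg h7, if_neg h8] at h5
  split_ifs at h5 with h9 h10
  · simp at h5
  · simp at h5
  · omega

theorem Wns_get (n j : ℕ) (s : Lt k) (hj : j < (Wn k n ++ [s.1]).length) :
    (Wn k n ++ [s.1])[j]'hj = if j ≤ n then (0, true) else if j = n + 1 then (1, true) else
      if j = n + 2 then (0, false) else s.1 := by
  have hl : (Wn k n ++ [s.1]).length = n + 4 := by simp [Wn_length]
  by_cases h : j < n + 3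
  · rw [List.getElem_append_left (by rw [Wn_length]; exact h), Wn_get]
    split_ifs <;> first | rfl | omega
  · have : j = n + 3 := by omega
    subst this
    rw [List.getElem_append_right (by rw [Wn_length])]
    simp

theorem Wns_nso (n : ℕ) (s : Lt k) : NSO (Wn k n ++ [s.1]) := by
  intro u hu h1 h2
  by_contra hne
  have hl : (Wn k n ++ [s.1]).length = n + 4 := by simp [Wn_length]
  have hlen : u.length < n + 4 := by
    have := h1.length_le
    rcases this.lt_or_eq with h | h
    · omega
    · exact absurd (h1.eq_of_length h) hne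
  have hu0 : 0 < u.length := List.length_pos_iff.2 hu
  by_cases hone : u.length = 1
  · obtain ⟨h3, h4, h5⟩ := overlap_getElem h1 h2 0 (by omega)
    rw [Wns_get, Wns_get] at h5
    have h6 : (Wn k n ++ [s.1]).length - u.length + 0 = n + 3 := by omega
    rw [h6, if_pos (Nat.zero_le _), if_neg (by omega), if_neg (by omega), if_neg (by omega)] at h5
    exact s.2 h5.symm
  · obtain ⟨h3, h4, h5⟩ := overlap_getElem h1 h2 (u.length - 2) (by omega)
    rw [Wns_get, Wns_get] at h5
    have h6 : (Wn k n ++ [s.1]).length - u.length + (u.length - 2) = n + 2 := by omega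
    rw [h6] at h5
    rw [if_neg (show ¬ (n + 2 ≤ n) by omega), if_neg (show ¬ (n + 2 = n + 1) by omega),
      if_pos rfl] at h5
    split_ifs at h5 with h9 h10 h11
    · simp at h5
    · simp at h5
    · omega
    · omega

/-- the element `a^{n+1} b a⁻¹` -/
def wn (k n : ℕ) : FreeGroup (Fin (k + 2)) := FreeGroup.mk (Wn k n)
/-- the element `a^{n+1} b a⁻¹ s` -/
def wns (k : ℕ) (p : ℕ × Lt k) : FreeGroup (Fin (k + 2)) := FreeGroup.mk (Wn k p.1 ++ [p.2.1])

theorem wn_toWord (n : ℕ) : (wn k n).toWord = Wn k n := by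
  rw [wn, toWord_mk]; exact IsReduced.reduce_eq (Wn_reduced n)

theorem wns_toWord (p : ℕ × Lt k) : (wns k p).toWord = Wn k p.1 ++ [p.2.1] := by
  rw [wns, toWord_mk]; exact IsReduced.reduce_eq (Wns_reduced p.1 p.2)

theorem wn_mem (n : ℕ) : wn k n ∈ NN (k + 2) := by
  refine ⟨?_, by rw [wn_toWord]; exact Wn_nso n⟩
  intro h
  have := wn_toWord (k := k) n
  rw [h, toWord_one] at this
  exact Wn_ne n this.symm

theorem wns_mem (p : ℕ × Lt k) : wns k p ∈ NN (k + 2) := by
  refine ⟨?_, by rw [wns_toWord]; exact Wns_nso p.1 p.2⟩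
  intro h
  have := wns_toWord (k := k) p
  rw [h, toWord_one] at this
  simp at this

theorem wn_inj : Function.Injective (wn k) := by
  intro m n h
  have := congrArg (fun w => w.toWord.length) h
  simp only [wn_toWord, Wn_length] at this
  omega

theorem wns_inj : Function.Injective (wns k) := by
  rintro ⟨m, s⟩ ⟨n, t⟩ h
  have h1 := congrArg FreeGroup.toWord h
  rw [wns_toWord, wns_toWord] at h1
  have h2 := congrArg List.length h1
  simp only [List.length_append, Wn_length, List.length_singleton] at h2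
  have h3 : m = n := by omega
  subst h3
  have h4 := List.append_cancel_left h1
  simp only [List.cons.injEq, and_true] at h4
  rw [Subtype.ext h4]

theorem wn_ne_wns (n : ℕ) (p : ℕ × Lt k) : wn k n ≠ wns k p := by
  intro h
  have h1 := congrArg FreeGroup.toWord h
  rw [wn_toWord, wns_toWord] at h1
  have h2 := congrArg List.length h1
  simp only [List.length_append, Wn_length, List.length_singleton] at h2
  have h3 : (Wn k n)[p.1 + 1]'(by rw [Wn_length]; omega) =
      (Wn k p.1 ++ [p.2.1])[p.1 + 1]'(by simp [Wn_length]) := by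
    simp only [h1]
  rw [Wn_get, Wns_get, if_pos (by omega), if_neg (by omega), if_pos rfl] at h3
  simp at h3

open Classical in
/-- the telescoping identity -/
theorem tele (n : ℕ) (g : FreeGroup (Fin (k + 2))) :
    hB (wn k n) g - ∑ s : Lt k, hB (wns k (n, s)) g =
      (if Wn k n <:+ g.toWord then 1 else 0) - (if Wn k n <:+ invRev g.toWord then 1 else 0) := by
  have hred : ∀ L : List (Fin (k + 2) × Bool), IsReduced L →
      cnt (Wn k n ++ [((0 : Fin (k + 2)), true)]) L = 0 := by
    intro L hL
    rw [cnt, Set.ncard_eq_zero (cnt_finite _ _)]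
    ext ⟨u, v⟩
    simp only [Set.mem_ofPred_eq, Set.mem_empty_iff_false, iff_false]
    intro h
    have h1 : FreeGroup.IsReduced (Wn k n ++ [((0 : Fin (k + 2)), true)]) := by
      rw [FreeGroup.IsReduced, ← h] at hL
      exact hL.left_of_append.right_of_append
    rw [FreeGroup.IsReduced, List.isChain_append] at h1
    have h2 := h1.2.2 (0, false) (by simp [Wn, List.getLast?_append]) (0, true) (by simp)
    simp at h2
  have hsum : ∀ L : List (Fin (k + 2) × Bool), IsReduced L →
      (cnt (Wn k n) L : ℝ) = (if Wn k n <:+ L then 1 else 0) +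
        ∑ s : Lt k, (cnt (Wn k n ++ [s.1]) L : ℝ) := by
    intro L hL
    have h1 := cnt_extend (Wn_ne (k := k) n) L
    have h2 : ∑ s : Fin (k + 2) × Bool, cnt (Wn k n ++ [s]) L =
        ∑ s : Lt k, cnt (Wn k n ++ [s.1]) L := by
      rw [Fintype.sum_eq_add_sum_subtype_ne (fun s => cnt (Wn k n ++ [s]) L)
        ((0 : Fin (k + 2)), true)]
      rw [hred L hL, zero_add]
    rw [h1, h2]
    push_cast
    rfl
  rw [hB_eq, wn_toWord, hsum _ isReduced_toWord, hsum _ (by
    rw [← toWord_inv]; exact isReduced_toWord)]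
  have h3 : ∀ s : Lt k, hB (wns k (n, s)) g = (cnt (Wn k n ++ [s.1]) g.toWord : ℝ) -
      (cnt (Wn k n ++ [s.1]) (invRev g.toWord) : ℝ) := by
    intro s
    rw [hB_eq, wns_toWord]
  simp only [h3, Finset.sum_sub_distrib]
  ring

end Pool.Agent.Q322.BQ
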