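import Mathlib

set_option autoImplicit false

/-!
# Counting occurrences of a word
-/

namespace Pool.Agent.Q322.BQ

section Gen

variable {β : Type}

/-- The number of occurrences of the word `w` in the word `L`: the number of ways to write
`L = u w v`. -/
noncomputable def cnt (w L : List β) : ℕ :=
  Set.ncard {p : List β × List β | p.1 ++ w ++ p.2 = L}

theorem cnt_finite (w L : List β) : {p : List β × List β | p.1 ++ w ++ p.2 = L}.Finite := by
  apply Set.Finite.subset (s := (fun q : ℕ × ℕ => (L.take q.1, L.drop q.2)) ''
    (Set.Iic L.length ×ˢ Set.Iic L.length))
  · exact ((Set.finite_Iic _).prod (Set.finite_Iic _)).image _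
  · rintro ⟨u, v⟩ h
    simp only [Set.mem_ofPred_eq] at h
    refine ⟨(u.length, (u ++ w).length), ⟨?_, ?_⟩, ?_⟩
    · simp only [Set.mem_Iic, ← h, List.length_append]; omega
    · simp only [Set.mem_Iic, ← h, List.length_append]; omega
    · simp only [Prod.mk.injEq]
      constructor
      · rw [← h, List.append_assoc, List.take_left']; rfl
      · rw [← h, List.drop_left']; rfl

theorem cnt_nil {w : List β} (hw : w ≠ []) : cnt w [] = 0 := by
  rw [cnt, Set.ncard_eq_zero (cnt_finite w [])]
  ext ⟨u, v⟩
  simp [hw]

open Classical in
theorem cnt_cons {w : List β} (_hw : w ≠ []) (x : β) (L : List β) :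
    cnt w (x :: L) = (if w <+: x :: L then 1 else 0) + cnt w L := by
  have hinj : Function.Injective (fun p : List β × List β => (x :: p.1, p.2)) := by
    rintro ⟨a, b⟩ ⟨c, d⟩ h
    simp only [Prod.mk.injEq, List.cons.injEq, true_and] at h
    exact Prod.ext h.1 h.2
  have himg : Set.ncard ((fun p : List β × List β => (x :: p.1, p.2)) ''
      {p : List β × List β | p.1 ++ w ++ p.2 = L}) = cnt w L :=
    Set.ncard_image_of_injective _ hinj
  by_cases h : w <+: x :: L
  · obtain ⟨v, hv⟩ := h
    rw [if_pos ⟨v, hv⟩, ← himg, add_comm 1]
    rw [← Set.ncard_insert_of_notMem (a := (([] : List β), v)) _ ((cnt_finite w L).image _)]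
    · rw [cnt]
      congr 1
      ext ⟨a, b⟩
      simp only [Set.mem_ofPred_eq, Set.mem_insert_iff, Prod.mk.injEq, Set.mem_image, Prod.exists]
      constructor
      · intro h
        rcases a with _ | ⟨y, a⟩
        · left
          refine ⟨rfl, ?_⟩
          rw [List.nil_append, ← hv] at h
          exact List.append_cancel_left h
        · right
          simp only [List.cons_append, List.cons.injEq] at h
          exact ⟨a, b, h.2, by rw [h.1], rfl⟩
      · rintro (⟨rfl, rfl⟩ | ⟨a', b', h, rfl, rfl⟩)
        · simpa using hv
        · simp only [List.cons_append, h]
    · rintro ⟨⟨a, b⟩, -, h⟩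
      simp at h
  · rw [if_neg h, zero_add, ← himg, cnt]
    congr 1
    ext ⟨a, b⟩
    simp only [Set.mem_ofPred_eq, Set.mem_image, Prod.exists, Prod.mk.injEq]
    constructor
    · intro h'
      rcases a with _ | ⟨y, a⟩
      · exact absurd ⟨b, by simpa using h'⟩ h
      · simp only [List.cons_append, List.cons.injEq] at h'
        exact ⟨a, b, h'.2, by rw [h'.1], rfl⟩
    · rintro ⟨a', b', h, rfl, rfl⟩
      simp only [List.cons_append, h]

theorem cnt_eq_zero_of_length {w L : List β} (h : L.length < w.length) : cnt w L = 0 := by
  rw [cnt, Set.ncard_eq_zero (cnt_finite w L)]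
  ext ⟨u, v⟩
  simp only [Set.mem_ofPred_eq, Set.mem_empty_iff_false, iff_false]
  intro h'
  rw [← h'] at h
  simp only [List.length_append] at h
  omega

/-- near additivity, lower bound -/
theorem cnt_append_ge {w : List β} (hw : w ≠ []) (x y : List β) :
    cnt w x + cnt w y ≤ cnt w (x ++ y) := by
  classical
  induction x with
  | nil => simp [cnt_nil hw]
  | cons a x ih =>
    rw [cnt_cons hw, List.cons_append, cnt_cons hw]
    have : (if w <+: a :: x then 1 else 0) ≤ (if w <+: a :: (x ++ y) then 1 else 0) := by
      split_ifs with h1 h2
      · exact le_rfl
      · exact absurd (h1.trans (by rw [← List.cons_append]; exact List.prefix_append _ _)) h2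
      · exact Nat.zero_le _
      · exact le_rfl
    omega

/-- near additivity, upper bound -/
theorem cnt_append_le {w : List β} (hw : w ≠ []) (x y : List β) :
    cnt w (x ++ y) ≤ cnt w x + cnt w y + w.length := by
  classical
  suffices h : cnt w (x ++ y) ≤ cnt w x + cnt w y + min x.length w.length by
    have := min_le_right x.length w.length
    omega
  induction x with
  | nil => simp [cnt_nil hw]
  | cons a x ih =>
    rw [cnt_cons hw, List.cons_append, cnt_cons hw]
    simp only [List.length_cons]
    by_cases hlen : w.length ≤ x.length + 1
    · have : (if w <+: a :: (x ++ y) then 1 else 0) ≤ (if w <+: a :: x then 1 else 0) := by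
        split_ifs with h1 h2 h2
        · exact le_rfl
        · exfalso
          apply h2
          rw [← List.cons_append] at h1
          exact List.prefix_of_prefix_length_le h1 (List.prefix_append _ _) (by simpa using hlen)
        · exact Nat.zero_le _
        · exact le_rfl
      omega
    · have : (if w <+: a :: (x ++ y) then 1 else 0) ≤ 1 := by split_ifs <;> omega
      omega

open Classical in
/-- right extensions -/
theorem cnt_extend [Fintype β] {w : List β} (hw : w ≠ []) (L : List β) :
    cnt w L = (if w <:+ L then 1 else 0) + ∑ s : β, cnt (w ++ [s]) L := by
  have hws : ∀ s : β, w ++ [s] ≠ [] := fun s => by simp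
  induction L with
  | nil =>
    rw [cnt_nil hw, if_neg (by rw [List.suffix_nil]; exact hw)]
    simp [cnt_nil (hws _)]
  | cons x L ih =>
    rw [cnt_cons hw, ih]
    have h1 : ∑ s : β, cnt (w ++ [s]) (x :: L) =
        ∑ s : β, (if w ++ [s] <+: x :: L then 1 else 0) + ∑ s : β, cnt (w ++ [s]) L := by
      rw [← Finset.sum_add_distrib]
      exact Finset.sum_congr rfl (fun s _ => cnt_cons (hws s) x L)
    rw [h1]
    have h2 : (if w <+: x :: L then 1 else 0) + (if w <:+ L then 1 else 0) =
        (if w <:+ x :: L then 1 else 0) + ∑ s : β, (if w ++ [s] <+: x :: L then 1 else 0) := by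
      by_cases hp : w <+: x :: L
      · obtain ⟨v, hv⟩ := hp
        rw [if_pos ⟨v, hv⟩]
        rcases v with _ | ⟨s, v⟩
        · -- `w = x :: L`
          have hw' : w = x :: L := by simpa using hv
          have h3 : ∀ s : β, ¬ (w ++ [s] <+: x :: L) := by
            intro s hs
            have := hs.length_le
            rw [hw'] at this
            simp at this
          have h4 : ¬ w <:+ L := by
            intro hs
            have := hs.length_le
            rw [hw'] at this
            simp at this
          have h5 : w <:+ x :: L := by rw [hw']
          simp [h3, h4, h5]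
        · have h3 : ∀ t : β, w ++ [t] <+: x :: L ↔ t = s := by
            intro t
            rw [← hv]
            constructor
            · intro h
              rw [List.prefix_append_right_inj] at h
              simpa using h
            · rintro rfl
              exact ⟨v, by simp⟩
          have h4 : w ≠ x :: L := by
            intro h
            rw [h] at hv
            have := congrArg List.length hv
            simp at this
          have h5 : (w <:+ x :: L) ↔ w <:+ L := by
            rw [List.suffix_cons_iff]
            simp [h4]
          simp only [h3, Finset.sum_ite_eq', Finset.mem_univ, if_true, h5]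
          omega
      · have h3 : ∀ s : β, ¬ (w ++ [s] <+: x :: L) := fun s hs =>
          hp ((List.prefix_append _ _).trans hs)
        have h4 : w ≠ x :: L := fun h => hp (by rw [h])
        have h5 : (w <:+ x :: L) ↔ w <:+ L := by
          rw [List.suffix_cons_iff]
          simp [h4]
        simp [hp, h3, h5]
    omega

/-- subadditivity along powers -/
theorem cnt_pow_le {w : List β} (hw : w ≠ []) (u c v : List β) (m n : ℕ) :
    cnt w (u ++ (List.replicate (m + n) c).flatten ++ v) ≤
      cnt w (u ++ (List.replicate m c).flatten ++ v) +
      cnt w (u ++ (List.replicate n c).flatten ++ v) + 3 * w.length := by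
  have h1 : (List.replicate (m + n) c).flatten =
      (List.replicate m c).flatten ++ (List.replicate n c).flatten := by
    rw [List.replicate_add, List.flatten_append]
  rw [h1]
  have e1 := cnt_append_le hw (u ++ ((List.replicate m c).flatten ++ (List.replicate n c).flatten)) v
  have e2 := cnt_append_le hw u ((List.replicate m c).flatten ++ (List.replicate n c).flatten)
  have e3 := cnt_append_le hw (List.replicate m c).flatten (List.replicate n c).flatten
  have e4 := cnt_append_ge hw (u ++ (List.replicate m c).flatten) v
  have e5 := cnt_append_ge hw u (List.replicate m c).flatten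
  have e6 := cnt_append_ge hw (u ++ (List.replicate n c).flatten) v
  have e7 := cnt_append_ge hw u (List.replicate n c).flatten
  omega

/-- not self-overlapping -/
def NSO (w : List β) : Prop := ∀ u : List β, u ≠ [] → u <+: w → u <:+ w → u = w

theorem overlap_getElem {u w : List β} (h1 : u <+: w) (h2 : u <:+ w) (i : ℕ) (hi : i < u.length) :
    ∃ (h3 : i < w.length) (h4 : w.length - u.length + i < w.length),
      w[i]'h3 = w[w.length - u.length + i]'h4 := by
  obtain ⟨v, hv⟩ := h1
  obtain ⟨v', hv'⟩ := h2
  have hl := congrArg List.length hv
  have hl' := congrArg List.length hv'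
  simp only [List.length_append] at hl hl'
  refine ⟨by omega, by omega, ?_⟩
  have e1 : w[i]'(by omega) = u[i] := by
    simp only [← hv]
    rw [List.getElem_append_left hi]
  have e2 : w[w.length - u.length + i]'(by omega) = u[i] := by
    have : w.length - u.length + i = v'.length + i := by omega
    simp only [this]
    simp only [← hv']
    rw [List.getElem_append_right (by omega)]
    simp
  rw [e1, e2]

/-- periodic words contain no long words without self-overlap -/
theorem cnt_pow_nso {w c : List β} (hw : NSO w) (hlen : c.length < w.length) (n : ℕ) :
    cnt w (List.replicate n c).flatten = 0 := by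
  rw [cnt, Set.ncard_eq_zero (cnt_finite w _)]
  ext ⟨x, y⟩
  simp only [Set.mem_ofPred_eq, Set.mem_empty_iff_false, iff_false]
  intro h
  rcases Nat.eq_zero_or_pos c.length with hc | hc
  · have : c = [] := List.length_eq_zero_iff.1 hc
    subst this
    have h2 := congrArg List.length h
    have h3 : (List.replicate n ([] : List β)).flatten.length = 0 := by simp
    rw [h3] at h2
    simp only [List.length_append] at h2
    simp only [List.length_nil] at hlen
    omega
  · -- `L = c^n`
    obtain ⟨L, hL⟩ : ∃ L, L = (List.replicate n c).flatten := ⟨_, rfl⟩
    rw [← hL] at h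
    have hlenL : L.length = n * c.length := by simp [hL]
    have hper : ∀ i (h1 : i + c.length < L.length), L[i + c.length]'h1 = L[i]'(by omega) := by
      intro i h1
      obtain ⟨n', rfl⟩ : ∃ n', n = n' + 1 := ⟨n - 1, by
        rcases n with _ | n
        · exfalso
          rw [hlenL, zero_mul] at h1
          omega
        · rfl⟩
      have e1 : L = c ++ (List.replicate n' c).flatten := by
        rw [hL, List.replicate_succ, List.flatten_cons]
      have e2 : L = (List.replicate n' c).flatten ++ c := by
        rw [hL, List.replicate_succ', List.flatten_concat]
      have hl1 : (List.replicate n' c).flatten.length = n' * c.length := by simp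
      have hl2 : i < (List.replicate n' c).flatten.length := by
        rw [hl1]
        rw [hlenL, add_mul, one_mul] at h1
        omega
      have e3 : L[i + c.length]'h1 = (List.replicate n' c).flatten[i]'hl2 := by
        simp only [e1]
        rw [List.getElem_append_right (by omega)]
        simp
      have e4 : L[i]'(by omega) = (List.replicate n' c).flatten[i]'hl2 := by
        simp only [e2]
        rw [List.getElem_append_left hl2]
      rw [e3, e4]
    have hlen2 := congrArg List.length h
    simp only [List.length_append] at hlen2
    have hw1 : ∀ i (h1 : i + c.length < w.length), w[i + c.length]'h1 = w[i]'(by omega) := by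
      intro i h1
      have f1 : ∀ j (hj : j < w.length), w[j]'hj = L[x.length + j]'(by omega) := by
        intro j hj
        simp only [← h]
        rw [List.getElem_append_left (by simp; omega), List.getElem_append_right (by omega)]
        simp
      rw [f1, f1]
      have := hper (x.length + i) (by omega)
      simp only [← this, add_assoc]
    have h5 : w.drop c.length = w.take (w.length - c.length) := by
      apply List.ext_getElem
      · simp
      · intro i h1 h2
        rw [List.getElem_drop, List.getElem_take]
        have := hw1 i (by simp at h1; omega)
        simp only [add_comm c.length i, this]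
    have h6 := hw (w.drop c.length) (by
      intro h7
      have := congrArg List.length h7
      simp at this
      omega) (by rw [h5]; exact List.take_prefix _ _) (List.drop_suffix _ _)
    have := congrArg List.length h6
    simp at this
    omega

end Gen

end Pool.Agent.Q322.BQ
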