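import Pool.Agent.Q322.BQ.Brooks

set_option autoImplicit false

/-!
# The coefficients and the sums
-/

namespace Pool.Agent.Q322.BQ

open Filter Topology FreeGroup

variable {k : ℕ}

open Classical in
/-- one half of the coefficients -/
noncomputable def sc (k : ℕ) (w : FreeGroup (Fin (k + 2))) : ℝ :=
  (if w ∈ Set.range (wn k) then 1 else 0) - (if w ∈ Set.range (wns k) then 1 else 0)

/-- the coefficients -/
noncomputable def al (k : ℕ) (w : FreeGroup (Fin (k + 2))) : ℝ := sc k w - sc k w⁻¹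

/-- `Np` contains exactly one of `w`, `w⁻¹` for each nontrivial `w` without self-overlap -/
def IsHalf (r : ℕ) (Np : Set (FreeGroup (Fin r))) : Prop :=
  Np ⊆ NN r ∧ ∀ w ∈ NN r, (w ∈ Np ∧ w⁻¹ ∉ Np) ∨ (w ∉ Np ∧ w⁻¹ ∈ Np)

theorem sc_wn (n : ℕ) : sc k (wn k n) = 1 := by
  have h : wn k n ∉ Set.range (wns k) := by
    rintro ⟨p, hp⟩; exact wn_ne_wns n p hp.symm
  rw [sc, if_pos ⟨n, rfl⟩, if_neg h, sub_zero]

theorem sc_wns (p : ℕ × Lt k) : sc k (wns k p) = -1 := by
  have h : wns k p ∉ Set.range (wn k) := by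
    rintro ⟨n, hn⟩; exact wn_ne_wns n p hn
  rw [sc, if_neg h, if_pos ⟨p, rfl⟩, zero_sub]

theorem sc_ne {w : FreeGroup (Fin (k + 2))} (h : sc k w ≠ 0) :
    w ∈ Set.range (wn k) ∨ w ∈ Set.range (wns k) := by
  by_contra hcon
  push Not at hcon
  apply h
  rw [sc, if_neg hcon.1, if_neg hcon.2, sub_zero]

theorem sc_mem {w : FreeGroup (Fin (k + 2))} (h : sc k w ≠ 0) : w ∈ NN (k + 2) := by
  rcases sc_ne h with ⟨n, rfl⟩ | ⟨p, rfl⟩
  · exact wn_mem n
  · exact wns_mem p

theorem al_inv (w : FreeGroup (Fin (k + 2))) : al k w⁻¹ = -al k w := by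
  rw [al, al, inv_inv]; ring

theorem al_supp {w : FreeGroup (Fin (k + 2))} (h : w ∉ NN (k + 2)) : al k w = 0 := by
  have h1 : sc k w = 0 := by
    by_contra hne; exact h (sc_mem hne)
  have h2 : sc k w⁻¹ = 0 := by
    by_contra hne
    apply h
    have := NN_inv (sc_mem hne)
    rwa [inv_inv] at this
  rw [al, h1, h2, sub_zero]

theorem finite_short (K : ℕ) : {w : FreeGroup (Fin (k + 2)) | w.toWord.length ≤ K}.Finite := by
  apply Set.Finite.of_finite_image (f := FreeGroup.toWord)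
  · apply (List.finite_length_le (Fin (k + 2) × Bool) K).subset
    rintro _ ⟨w, hw, rfl⟩
    exact hw
  · exact FreeGroup.toWord_injective.injOn

theorem main_sum {Np : Set (FreeGroup (Fin (k + 2)))} (hNp : IsHalf (k + 2) Np)
    (H : FreeGroup (Fin (k + 2)) → ℝ) (Hinv : ∀ w ∈ NN (k + 2), H w⁻¹ = -H w) (K : ℕ)
    (HK : ∀ w ∈ NN (k + 2), K < w.toWord.length → H w = 0) :
    ∑ᶠ w ∈ Np, al k w * H w =
      ∑ n ∈ Finset.range K, (H (wn k n) - ∑ s : Lt k, H (wns k (n, s))) := by
  classical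
  obtain ⟨Fq, hFq⟩ : ∃ Fq : FreeGroup (Fin (k + 2)) → ℝ, Fq = fun w => sc k w * H w := ⟨_, rfl⟩
  obtain ⟨T, hT⟩ : ∃ T : Finset (FreeGroup (Fin (k + 2))), T =
    (Finset.range K).image (wn k) ∪ ((Finset.range K) ×ˢ (Finset.univ : Finset (Lt k))).image
      (wns k) := ⟨_, rfl⟩
  have hsupp : Function.support Fq ⊆ (T : Set (FreeGroup (Fin (k + 2)))) := by
    intro w hw
    rw [Function.mem_support, hFq] at hw
    have h1 : sc k w ≠ 0 := left_ne_zero_of_mul hw
    have h2 : H w ≠ 0 := right_ne_zero_of_mul hw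
    have h3 : w.toWord.length ≤ K := by
      by_contra hcon
      exact h2 (HK w (sc_mem h1) (by omega))
    rw [hT, Finset.coe_union]
    rcases sc_ne h1 with ⟨n, rfl⟩ | ⟨⟨n, s⟩, rfl⟩
    · left
      rw [wn_toWord, Wn_length] at h3
      exact Finset.mem_coe.2 (Finset.mem_image_of_mem _ (Finset.mem_range.2 (by omega)))
    · right
      rw [wns_toWord] at h3
      simp only [List.length_append, Wn_length, List.length_singleton] at h3
      refine Finset.mem_coe.2 (Finset.mem_image_of_mem _ ?_)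
      exact Finset.mem_product.2 ⟨Finset.mem_range.2 (by simp only; omega), Finset.mem_univ _⟩
  have hfin : (Function.support Fq).Finite := (Finset.finite_toSet T).subset hsupp
  have hfin' : (Function.support (fun w => Fq w⁻¹)).Finite := by
    have : Function.support (fun w => Fq w⁻¹) ⊆ Inv.inv '' Function.support Fq := by
      intro w hw
      exact ⟨w⁻¹, hw, inv_inv w⟩
    exact (hfin.image _).subset this
  have h1 : ∑ᶠ w ∈ Np, al k w * H w = ∑ᶠ w ∈ Np, (Fq w + Fq w⁻¹) := by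
    apply finsum_mem_congr rfl
    intro w hw
    rw [hFq]
    simp only [al, Hinv w (hNp.1 hw)]
    ring
  have h2 : ∑ᶠ w ∈ Np, (Fq w + Fq w⁻¹) = ∑ᶠ w ∈ Np, Fq w + ∑ᶠ w ∈ Np, Fq w⁻¹ :=
    finsum_mem_add_distrib' (hfin.inter_of_right _) (hfin'.inter_of_right _)
  have h3 : ∑ᶠ w ∈ Np, Fq w⁻¹ = ∑ᶠ w ∈ Inv.inv '' Np, Fq w :=
    (finsum_mem_image (fun a _ b _ h => inv_injective h)).symm
  have hdisj : Disjoint Np (Inv.inv '' Np) := by
    rw [Set.disjoint_left]
    rintro w hw ⟨v, hv, rfl⟩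
    rcases hNp.2 v (hNp.1 hv) with h | h
    · exact h.2 hw
    · exact h.1 hv
  have h4 : ∑ᶠ w ∈ Np, Fq w + ∑ᶠ w ∈ Inv.inv '' Np, Fq w = ∑ᶠ w ∈ Np ∪ Inv.inv '' Np, Fq w :=
    (finsum_mem_union' hdisj (hfin.inter_of_right _) (hfin.inter_of_right _)).symm
  have h5 : ∑ᶠ w ∈ Np ∪ Inv.inv '' Np, Fq w = ∑ᶠ w, Fq w := by
    rw [← finsum_mem_univ Fq]
    apply finsum_mem_inter_support_eq
    ext w
    simp only [Set.mem_inter_iff, Set.mem_univ, true_and, and_iff_right_iff_imp]
    intro hw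
    have hw' : sc k w ≠ 0 := by
      rw [Function.mem_support, hFq] at hw
      exact left_ne_zero_of_mul hw
    rcases hNp.2 w (sc_mem hw') with h | h
    · exact Or.inl h.1
    · exact Or.inr ⟨w⁻¹, h.2, inv_inv w⟩
  have h6 : ∑ᶠ w, Fq w = ∑ w ∈ T, Fq w := finsum_eq_sum_of_support_subset _ hsupp
  have hd2 : Disjoint ((Finset.range K).image (wn k))
      (((Finset.range K) ×ˢ (Finset.univ : Finset (Lt k))).image (wns k)) := by
    rw [Finset.disjoint_left]
    intro w hw hw'
    obtain ⟨n, -, rfl⟩ := Finset.mem_image.1 hw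
    obtain ⟨p, -, hp⟩ := Finset.mem_image.1 hw'
    exact wn_ne_wns n p hp.symm
  rw [h1, h2, h3, h4, h5, h6, hT, Finset.sum_union hd2,
    Finset.sum_image (fun a _ b _ h => wn_inj h), Finset.sum_image (fun a _ b _ h => wns_inj h),
    Finset.sum_product, ← Finset.sum_add_distrib]
  apply Finset.sum_congr rfl
  intro n _
  rw [hFq]
  simp only [sc_wn, sc_wns, one_mul, neg_one_mul, Finset.sum_neg_distrib]
  ring

theorem fin_supp (H : FreeGroup (Fin (k + 2)) → ℝ) (K : ℕ)
    (HK : ∀ w ∈ NN (k + 2), K < w.toWord.length → H w = 0) :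
    {w | al k w * H w ≠ 0}.Finite := by
  apply (finite_short (k := k) K).subset
  intro w hw
  have h1 : al k w ≠ 0 := left_ne_zero_of_mul hw
  have h2 : H w ≠ 0 := right_ne_zero_of_mul hw
  have h3 : w ∈ NN (k + 2) := by
    by_contra h; exact h1 (al_supp h)
  by_contra hcon
  exact h2 (HK w h3 (by simpa using hcon))

/-- the homogenized sum vanishes -/
theorem tphi_zero {Np : Set (FreeGroup (Fin (k + 2)))} (hNp : IsHalf (k + 2) Np)
    (g : FreeGroup (Fin (k + 2))) : ∑ᶠ w ∈ Np, al k w * hBar w g = 0 := by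
  rw [main_sum hNp (fun w => hBar w g) (fun w hw => hBar_inv hw.1 g) g.toWord.length
    (fun w hw h => hBar_zero hw g h)]
  apply Finset.sum_eq_zero
  intro n _
  -- the limit of a bounded sequence divided by `m`
  have h1 : Tendsto (fun m : ℕ => hB (wn k n) (g ^ m) / m - ∑ s : Lt k,
      hB (wns k (n, s)) (g ^ m) / m) atTop
      (𝓝 (hBar (wn k n) g - ∑ s : Lt k, hBar (wns k (n, s)) g)) :=
    (tendsto_hBar (wn_mem n).1 g).sub
      (tendsto_finsetSum _ (fun s _ => tendsto_hBar (wns_mem (n, s)).1 g))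
  have h2 : Tendsto (fun m : ℕ => hB (wn k n) (g ^ m) / m - ∑ s : Lt k,
      hB (wns k (n, s)) (g ^ m) / m) atTop (𝓝 0) := by
    have h3 : Tendsto (fun m : ℕ => (1 : ℝ) / m) atTop (𝓝 0) :=
      tendsto_const_div_atTop_nhds_zero_nat _
    apply squeeze_zero_norm _ h3
    intro m
    rw [← Finset.sum_div, ← sub_div, tele, Real.norm_eq_abs, abs_div, Nat.abs_cast]
    apply div_le_div_of_nonneg_right _ (Nat.cast_nonneg m)
    split_ifs <;> simp
  exact tendsto_nhds_unique h1 h2

open Classical in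
theorem phi_eq {Np : Set (FreeGroup (Fin (k + 2)))} (hNp : IsHalf (k + 2) Np)
    (g : FreeGroup (Fin (k + 2))) : ∑ᶠ w ∈ Np, al k w * hB w g =
      ∑ n ∈ Finset.range g.toWord.length, ((if Wn k n <:+ g.toWord then 1 else 0) -
        (if Wn k n <:+ invRev g.toWord then 1 else 0) : ℝ) := by
  rw [main_sum hNp (fun w => hB w g) (fun w _ => hB_inv w g) g.toWord.length
    (fun w _ h => hB_zero w g h)]
  exact Finset.sum_congr rfl (fun n _ => tele n g)

theorem b_mem_Wn (n : ℕ) : ((1 : Fin (k + 2)), true) ∈ Wn k n := by simp [Wn]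

theorem Wn_suffix (m n : ℕ) : Wn k n <:+ Wn k m ↔ n ≤ m := by
  constructor
  · intro h
    have := h.length_le
    rw [Wn_length, Wn_length] at this
    omega
  · intro h
    refine ⟨List.replicate (m - n) (0, true), ?_⟩
    rw [Wn, Wn, ← List.append_assoc, ← List.replicate_add]
    congr 2
    omega

theorem not_inv (m n : ℕ) (t : List (Fin (k + 2) × Bool)) (ht : ∀ x ∈ t, x ≠ (1, false)) :
    ¬ (Wn k n <:+ invRev (Wn k m ++ t)) := by
  intro h
  have h1 : ((1 : Fin (k + 2)), true) ∈ invRev (Wn k m ++ t) := h.subset (b_mem_Wn n)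
  simp only [invRev, List.mem_reverse, List.mem_map, List.mem_append, Prod.mk.injEq,
    Bool.not_eq_true', Prod.exists] at h1
  obtain ⟨a, b, h2, h3, h4⟩ := h1
  subst h3
  subst h4
  rcases h2 with h2 | h2
  · simp only [Wn, List.mem_append, List.mem_replicate, List.mem_cons, Prod.mk.injEq,
      List.not_mem_nil, or_false] at h2
    have := one_ne_zero2 (k := k)
    rcases h2 with h2 | h2 | h2
    · exact this h2.2.1
    · simp at h2
    · exact this h2.1
  · exact ht _ h2 rfl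

theorem phi_wn {Np : Set (FreeGroup (Fin (k + 2)))} (hNp : IsHalf (k + 2) Np) (m : ℕ) :
    ∑ᶠ w ∈ Np, al k w * hB w (wn k m) = m + 1 := by
  classical
  rw [phi_eq hNp, wn_toWord, Wn_length]
  have h1 : ∀ n, ((if Wn k n <:+ Wn k m then 1 else 0) -
      (if Wn k n <:+ invRev (Wn k m) then 1 else 0) : ℝ) = if n < m + 1 then 1 else 0 := by
    intro n
    have h2 := not_inv (k := k) m n [] (by simp)
    rw [List.append_nil] at h2
    rw [if_neg h2, sub_zero]
    have h3 := Wn_suffix (k := k) m n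
    by_cases h4 : n ≤ m
    · rw [if_pos (h3.2 h4), if_pos (by omega)]
    · rw [if_neg (fun h => h4 (h3.1 h)), if_neg (by omega)]
  rw [Finset.sum_congr rfl (fun n _ => h1 n), ← Finset.sum_filter]
  have h5 : (Finset.range (m + 3)).filter (fun n => n < m + 1) = Finset.range (m + 1) := by
    ext n
    simp only [Finset.mem_filter, Finset.mem_range]
    omega
  rw [h5]
  simp

theorem of_one_toWord : (FreeGroup.of (1 : Fin (k + 2))).toWord = [(1, true)] := toWord_of _

theorem phi_b {Np : Set (FreeGroup (Fin (k + 2)))} (hNp : IsHalf (k + 2) Np) :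
    ∑ᶠ w ∈ Np, al k w * hB w (FreeGroup.of 1) = 0 := by
  classical
  rw [phi_eq hNp, of_one_toWord]
  apply Finset.sum_eq_zero
  intro n _
  have h1 : ¬ (Wn k n <:+ [((1 : Fin (k + 2)), true)]) := by
    intro h
    have := h.length_le
    rw [Wn_length] at this
    simp at this
  have h2 : ¬ (Wn k n <:+ invRev [((1 : Fin (k + 2)), true)]) := by
    intro h
    have := h.length_le
    rw [Wn_length] at this
    simp [invRev] at this
  rw [if_neg h1, if_neg h2, sub_zero]

theorem wn_mul_toWord (m : ℕ) : (wn k m * FreeGroup.of 1).toWord = Wn k m ++ [(1, true)] := by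
  have h1 : wn k m * FreeGroup.of 1 = wns k (m, ⟨((1 : Fin (k + 2)), true), by simp⟩) := by
    rw [wn, wns, FreeGroup.of, FreeGroup.mul_mk]
  rw [h1, wns_toWord]

theorem phi_mul {Np : Set (FreeGroup (Fin (k + 2)))} (hNp : IsHalf (k + 2) Np) (m : ℕ) :
    ∑ᶠ w ∈ Np, al k w * hB w (wn k m * FreeGroup.of 1) = 0 := by
  classical
  rw [phi_eq hNp, wn_mul_toWord]
  apply Finset.sum_eq_zero
  intro n _
  have h1 : ¬ (Wn k n <:+ Wn k m ++ [((1 : Fin (k + 2)), true)]) := by
    rintro ⟨t, ht⟩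
    have h2 := congrArg List.getLast? ht
    rw [Wn] at h2
    simp [List.getLast?_append] at h2
  have h2 := not_inv (k := k) m n [((1 : Fin (k + 2)), true)] (by simp)
  rw [if_neg h1, if_neg h2, sub_zero]

end Pool.Agent.Q322.BQ
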